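import Pool.Agent.W607.Qc

/-!
# One very general germ: quasimonomial valuations are minimal up to exponentially small errors

For `t ≥ 1` and a germ `y = ξ(x)` let `v_{ξ,t}` be the quasimonomial valuation with weights `1`
on `x` and `t` on `y - ξ(x)`.  Nagata's conjecture for very general quasimonomial valuations
predicts `v_{ξ,t}(f) ≤ √t deg f` for all `t ≥ 9`, that is `μ̂(t) = √t`.  We prove that one very
general germ `ξ` satisfies, for all forms `f ≠ 0` of degree `d` and all real `t` at once: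

* `v_{ξ,t}(f) ≤ 1.025 √t d` for `t ≥ 9`;
* `v_{ξ,t}(f) ≤ (√t + t^(-k)) d` for `t ≥ 5^(14k+28)`, for every `k`;
* `v_{ξ,t}(f) ≤ (√t + exp(-t^(1/10))) d` for `t ≥ 2^1000`;
* `v_{ξ,t}(f) ≤ √t d` for rational `t = a/b ≥ 2^1000` if `3 √t b² d² exp(-t^(1/10)) < 1`.
-/

namespace Pool.Agent.Results.MP_dd8059_ag.OneGerm

open MvPolynomial

/-- The expansion `f(x, ξ(x) + Y, 1)` of the form `f(x, y, z)` along the germ `y = ξ(x)`,
`ξ(x) = x ∑ c_k x^k`, as a polynomial in `Y` over `ℂ⟦x⟧`. -/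
noncomputable def expansion (c : ℕ → ℂ) (f : MvPolynomial (Fin 3) ℂ) :
    Polynomial (PowerSeries ℂ) :=
  aeval ![Polynomial.C PowerSeries.X,
    Polynomial.C (PowerSeries.X * PowerSeries.mk c) + Polynomial.X, 1] f

/-- `v` is the value at `f` of the quasimonomial valuation with weight `1` on `x` and weight
`t` on `Y = y - ξ(x)`: the least `i + t j` such that `x^i Y^j` occurs in the expansion. -/
def IsValue (t : ℝ) (c : ℕ → ℂ) (f : MvPolynomial (Fin 3) ℂ) (v : ℝ) : Prop :=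
  IsLeast {w : ℝ | ∃ i j : ℕ, PowerSeries.coeff i ((expansion c f).coeff j) ≠ 0 ∧
    w = (i : ℝ) + t * (j : ℝ)} v

/-- Every nonzero form of degree `d` has, along the germ with coefficients `c` and with weight
`t`, a value, and it is at most `κ d`. -/
def ValueBound (c : ℕ → ℂ) (t κ : ℝ) : Prop :=
  ∀ d : ℕ, ∀ f : MvPolynomial (Fin 3) ℂ, f.IsHomogeneous d → f ≠ 0 →
    ∃ v, IsValue t c f v ∧ v ≤ κ * d

/-- **Near equality in Nagata's conjecture for quasimonomial valuations, for one very general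
germ and all weights.** -/
theorem result :
    ∃ S : ℕ → MvPolynomial ℕ ℂ, (∀ k, S k ≠ 0) ∧
      ∀ c : ℕ → ℂ, (∀ k, eval c (S k) ≠ 0) →
        (∀ t : ℝ, 9 ≤ t → ValueBound c t (1.025 * √t)) ∧
        (∀ (k : ℕ) (t : ℝ), 5 ^ (14 * k + 28) ≤ t → ValueBound c t (√t + 1 / t ^ k)) ∧
        (∀ t : ℝ, 2 ^ 1000 ≤ t → ValueBound c t (√t + Real.exp (-(t ^ (1 / 10 : ℝ))))) ∧
        ∀ a b : ℕ, 0 < b → (2 : ℝ) ^ 1000 ≤ (a : ℝ) / b →
          ∀ d : ℕ, ∀ f : MvPolynomial (Fin 3) ℂ, f.IsHomogeneous d → f ≠ 0 →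
            3 * √((a : ℝ) / b) * (b : ℝ) ^ 2 * (d : ℝ) ^ 2 *
              Real.exp (-(((a : ℝ) / b) ^ (1 / 10 : ℝ))) < 1 →
            ∃ v, IsValue ((a : ℝ) / b) c f v ∧ v ≤ √((a : ℝ) / b) * d := by
  obtain ⟨S, hS0, hS⟩ := Pool.Agent.W607.Qc.exists_gd
  refine ⟨S, hS0, fun c hc => ?_⟩
  have g := hS c hc
  refine ⟨fun t ht => Pool.Agent.W607.Qc.bdc_nine g ht,
    fun k t ht => Pool.Agent.W607.Qc.bdc_pow g k ht,
    fun t ht => Pool.Agent.W607.Qc.bdc_exp g ht, ?_⟩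
  intro a b hb ht d f hf hf0 hs
  obtain ⟨v, hv, hv'⟩ := Pool.Agent.W607.Qc.bdc_exp g ht d f hf hf0
  refine ⟨v, hv, Pool.Agent.W607.Qm.exact_rat hb (Real.exp_pos _).le ?_ hv hv' hs⟩
  have h2 : (1 : ℝ) ≤ (a : ℝ) / b := le_trans (one_le_pow₀ (by norm_num)) ht
  refine le_trans ?_ (Real.one_le_sqrt.2 h2)
  rw [Real.exp_le_one_iff, neg_nonpos]
  positivity

end Pool.Agent.Results.MP_dd8059_ag.OneGerm
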